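import Mathlib

set_option autoImplicit false
open MeasureTheory

namespace Pool.Agent.MP_6357da_an.H27

/-- The set of trapped points of an action `g` of an ordered time set `T` on the plane:
forward orbit bounded, backward orbit unbounded. -/
def trapped {T : Type} [Zero T] [LE T]
    (g : T → EuclideanSpace ℝ (Fin 2) → EuclideanSpace ℝ (Fin 2)) :
    Set (EuclideanSpace ℝ (Fin 2)) :=
  {x | Bornology.IsBounded {y | ∃ t : T, 0 ≤ t ∧ y = g t x} ∧
    ¬ Bornology.IsBounded {y | ∃ t : T, t ≤ 0 ∧ y = g t x}}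

/-- A `C^m` Lebesgue-measure-preserving cascade on the plane. -/
def IsCascade (m : ℕ) (g : ℤ → EuclideanSpace ℝ (Fin 2) → EuclideanSpace ℝ (Fin 2)) : Prop :=
  g 0 = id ∧ (∀ t s, g (t + s) = g t ∘ g s) ∧
    (∀ t, MeasurePreserving (g t) volume volume) ∧
    ContDiff ℝ m (g 1) ∧ ContDiff ℝ m (g (-1))

/-- A `C^m` Lebesgue-measure-preserving flow on the plane (jointly `C^m` in time and space). -/
def IsFlow (m : ℕ) (g : ℝ → EuclideanSpace ℝ (Fin 2) → EuclideanSpace ℝ (Fin 2)) : Prop :=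
  g 0 = id ∧ (∀ t s, g (t + s) = g t ∘ g s) ∧
    (∀ t, MeasurePreserving (g t) volume volume) ∧
    ContDiff ℝ m (fun p : ℝ × EuclideanSpace ℝ (Fin 2) => g p.1 p.2)

end Pool.Agent.MP_6357da_an.H27
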